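import Mathlib

namespace Pool.Agent.Results.MP_c5d52e_co.Torsion

open Finset

/-- `A` is a `B_2` set over `ℤ`: the signed sums `∑ λ_a a` with `∑ |λ_a| = 2` are distinct. -/
def IsB2 {G : Type} [AddCommGroup G] (A : Finset G) : Prop :=
  Set.InjOn (fun l : A → ℤ => ∑ a : A, l a • (a : G)) {l | ∑ a : A, |l a| = 2}

/-- `σ_±(G,2)`: the largest size of a `B_2` set over `ℤ` (the empty set gives `0`). -/
noncomputable def sigma (G : Type) [AddCommGroup G] : ℕ :=
  sSup {m | ∃ A : Finset G, IsB2 A ∧ A.card = m}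

def g {m : ℕ} (i k : Fin m) : ℤ := if k.val = i.val then 1 else 0

def f {m : ℕ} (p : Fin m × Fin m × Bool) (k : Fin m) : ℤ :=
  if p.2.2 = true then (if p.1.val ≤ p.2.1.val then g p.1 k + g p.2.1 k else - g p.1 k - g p.2.1 k)
  else (if p.1.val = p.2.1.val then - g p.1 k - g p.2.1 k else g p.1 k - g p.2.1 k)

lemma g_self {m : ℕ} (i : Fin m) : g i i = 1 := by simp [g]

lemma g_cases {m : ℕ} (i k : Fin m) :
    (k.val = i.val ∧ g i k = 1) ∨ (k.val ≠ i.val ∧ g i k = 0) := by
  unfold g; split_ifs with h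
  · exact Or.inl ⟨h, rfl⟩
  · exact Or.inr ⟨h, rfl⟩

lemma f_cases {m : ℕ} (i j : Fin m) (e : Bool) :
    (e = true ∧ i.val ≤ j.val ∧ ∀ k, f (i, j, e) k = g i k + g j k) ∨
    (e = true ∧ j.val < i.val ∧ ∀ k, f (i, j, e) k = - g i k - g j k) ∨
    (e = false ∧ i.val = j.val ∧ ∀ k, f (i, j, e) k = - g i k - g j k) ∨
    (e = false ∧ i.val ≠ j.val ∧ ∀ k, f (i, j, e) k = g i k - g j k) := by
  cases e
  · by_cases h : i.val = j.val
    · right; right; left; exact ⟨rfl, h, fun k => by simp [f, h]⟩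
    · right; right; right; exact ⟨rfl, h, fun k => by simp [f, h]⟩
  · by_cases h : i.val ≤ j.val
    · left; refine ⟨rfl, h, fun k => ?_⟩; unfold f; rw [if_pos rfl, if_pos h]
    · right; left; refine ⟨rfl, by omega, fun k => ?_⟩; unfold f; rw [if_pos rfl, if_neg h]

lemma f_inj {m : ℕ} : Function.Injective (f (m := m)) := by
  rintro ⟨i, j, e⟩ ⟨i', j', e'⟩ h
  have h1 := congrFun h i
  have h2 := congrFun h j
  have key : i.val = i'.val ∧ j.val = j'.val ∧ e = e' := by
    have c1 := g_self i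
    have c2 := g_self j
    have c3 := g_cases i j
    have c4 := g_cases j i
    have c5 := g_cases i' i
    have c6 := g_cases i' j
    have c7 := g_cases j' i
    have c8 := g_cases j' j
    rcases f_cases i j e with ⟨a, b, c⟩ | ⟨a, b, c⟩ | ⟨a, b, c⟩ | ⟨a, b, c⟩ <;>
    rcases f_cases i' j' e' with ⟨a', b', c'⟩ | ⟨a', b', c'⟩ | ⟨a', b', c'⟩ | ⟨a', b', c'⟩ <;>
    rw [c, c'] at h1 h2 <;> clear h c c' <;>
    first
      | exact ⟨by omega, by omega, a.trans a'.symm⟩
      | (exfalso; omega)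
  obtain ⟨a, b, c⟩ := key
  rw [Fin.ext a, Fin.ext b, c]

lemma sum_g {m : ℕ} (i : Fin m) : ∑ k, g i k = 1 := by
  simp [g, Fin.val_inj]

lemma f_abs {m : ℕ} (p : Fin m × Fin m × Bool) : ∑ k, |f p k| = 2 := by
  have : ∀ k, |f p k| = g p.1 k + g p.2.1 k := by
    intro k
    unfold f g
    split_ifs <;> first | omega | simp
  simp only [this, sum_add_distrib, sum_g]; norm_num

lemma f_par {m : ℕ} (p : Fin m × Fin m × Bool) (c : Fin m → ZMod 2) :
    ∑ k, f p k • c k = c p.1 + c p.2.1 := by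
  have h2 : ∀ k, f p k • c k = g p.1 k • c k + g p.2.1 k • c k := by
    intro k
    have e : ∀ x : ZMod 2, -x = x := by decide
    unfold f
    split_ifs <;> simp only [add_smul, sub_eq_add_neg, neg_smul, e]
  have h3 : ∀ i : Fin m, ∑ k, g i k • c k = c i := by
    intro i; simp [g, Fin.val_inj, ite_smul]
  simp only [h2, sum_add_distrib, h3]

lemma setup {G : Type} [AddCommGroup G] (A : Finset G) (h : IsB2 A) :
    ∃ (a : Fin A.card → G) (F : Fin A.card × Fin A.card × Bool → G), Function.Injective F ∧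
      (∀ p, F p + F p ≠ 0) ∧ ∀ p, F p = ∑ k, f p k • a k := by
  let e := A.equivFin
  have hab : ∀ p : Fin A.card × Fin A.card × Bool, ∑ a : A, |f p (e a)| = 2 := by
    intro p; rw [← f_abs p]; exact Equiv.sum_comp e (fun k => |f p k|)
  refine ⟨fun k => (e.symm k : G), fun p => ∑ a : A, f p (e a) • (a : G), ?_, ?_, ?_⟩
  · intro p q hpq
    have := h (x₁ := fun a => f p (e a)) (x₂ := fun a => f q (e a)) (hab p) (hab q) hpq
    apply f_inj
    funext k
    simpa using congrFun this (e.symm k)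
  · intro p hp
    have hn : ∑ a : A, |(-f p (e a))| = 2 := by simpa using hab p
    have := h (x₁ := fun a => f p (e a)) (x₂ := fun a => -f p (e a)) (hab p) hn (by
      simp only [neg_smul, sum_neg_distrib]; exact eq_neg_of_add_eq_zero_left hp)
    have h0 : ∀ a, f p (e a) = 0 := fun a => by have := congrFun this a; omega
    have := hab p
    simp [h0] at this
  · intro p
    rw [← Equiv.sum_comp e]; simp

lemma part1 {G : Type} [AddCommGroup G] [Fintype G] [DecidableEq G] (A : Finset G) (h : IsB2 A) :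
    2 * A.card ^ 2 + (univ.filter (fun x : G => x + x = 0)).card ≤ Fintype.card G := by
  obtain ⟨a, F, hF, h2, -⟩ := setup A h
  have h1 : (univ.image F).card = 2 * A.card ^ 2 := by
    rw [card_image_of_injective _ hF]; simp; ring
  rw [← h1, ← card_union_of_disjoint]
  · exact card_le_univ _
  · rw [disjoint_left]
    intro x hx hx'
    obtain ⟨p, -, rfl⟩ := mem_image.1 hx
    exact h2 p (mem_filter.1 hx').2

lemma exists_hom {G : Type} [AddCommGroup G] [Fintype G] (hn : 2 ∣ Fintype.card G) :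
    ∃ φ : G →+ ZMod 2, ∃ y, φ y ≠ 0 := by
  classical
  haveI : Fact (Nat.Prime 2) := ⟨Nat.prime_two⟩
  obtain ⟨x, hx⟩ := exists_prime_addOrderOf_dvd_card 2 hn
  let d : G →+ G := nsmulAddMonoidHom 2
  have hni : ¬ Function.Injective d := by
    intro hi
    have h0 : 2 • x = 0 := by have := addOrderOf_nsmul_eq_zero x; rwa [hx] at this
    have h1 : d x = d 0 := by rw [map_zero]; exact h0
    have := hi h1
    rw [this] at hx; simp at hx
  have hns : ¬ Function.Surjective d := fun h => hni (Finite.injective_iff_surjective.2 h)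
  obtain ⟨y, hy⟩ := not_forall.1 hns
  letI : Module (ZMod 2) (G ⧸ d.range) := QuotientAddGroup.zmodModule (fun x => ⟨x, rfl⟩)
  have hy0 : (QuotientAddGroup.mk y : G ⧸ d.range) ≠ 0 := by
    rw [Ne, QuotientAddGroup.eq_zero_iff]; exact hy
  have := mt (Module.forall_dual_apply_eq_zero_iff (ZMod 2) _).1 hy0
  obtain ⟨ψ, hψ⟩ := not_forall.1 this
  exact ⟨ψ.toAddMonoidHom.comp (QuotientAddGroup.mk' _), y, hψ⟩

lemma part2 {G : Type} [AddCommGroup G] [Fintype G] (A : Finset G) (h : IsB2 A)
    (hn : 2 ∣ Fintype.card G) (hm : Odd A.card) : 2 * A.card ^ 2 + 4 ≤ Fintype.card G := by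
  classical
  obtain ⟨a, F, hF, h2, h3⟩ := setup A h
  obtain ⟨φ, y, hy⟩ := exists_hom hn
  set K := univ.filter (fun x : G => φ x = 0) with hK
  have hK1 : K.card ≤ (univ.filter (fun x : G => ¬ φ x = 0)).card := by
    apply card_le_card_of_injOn (fun x => x + y)
    · intro x hx
      have : φ x = 0 := by simpa [hK] using hx
      simp [this, hy]
    · intro x _ z _ hxz; exact add_right_cancel hxz
  have hK2 := card_filter_add_card_filter_not (s := (univ : Finset G)) (fun x : G => φ x = 0)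
  set S0 := univ.filter (fun k => φ (a k) = 0) with hS0
  set S1 := univ.filter (fun k => ¬ φ (a k) = 0) with hS1
  have hS := card_filter_add_card_filter_not (s := (univ : Finset (Fin A.card)))
    (fun k => φ (a k) = 0)
  have hφ : ∀ p, φ (F p) = φ (a p.1) + φ (a p.2.1) := by
    intro p; rw [h3, map_sum, ← f_par p (fun k => φ (a k))]; simp only [map_zsmul]
  let P : Finset (Fin A.card × Fin A.card × Bool) := S0 ×ˢ S0 ×ˢ univ ∪ S1 ×ˢ S1 ×ˢ univ
  have hP : P.card = S0.card * (S0.card * 2) + S1.card * (S1.card * 2) := by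
    rw [card_union_of_disjoint]
    · simp
    · rw [disjoint_left]; intro p h1 h2
      have a1 := (mem_filter.1 (mem_product.1 h1).1).2
      have a2 := (mem_filter.1 (mem_product.1 h2).1).2
      exact a2 a1
  have hP2 : P.card ≤ (K.erase 0).card := by
    apply card_le_card_of_injOn F _ hF.injOn
    intro p hp
    have hz : ∀ u v : ZMod 2, ¬ u = 0 → ¬ v = 0 → u + v = 0 := by decide
    refine mem_coe.2 (mem_erase.2 ⟨fun h0 => h2 p (by rw [h0, add_zero]), ?_⟩)
    refine mem_filter.2 ⟨mem_univ _, ?_⟩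
    rw [hφ]
    rcases mem_union.1 (mem_coe.1 hp) with h1 | h1
    · rw [(mem_filter.1 (mem_product.1 h1).1).2,
        (mem_filter.1 (mem_product.1 (mem_product.1 h1).2).1).2, add_zero]
    · exact hz _ _ (mem_filter.1 (mem_product.1 h1).1).2
        (mem_filter.1 (mem_product.1 (mem_product.1 h1).2).1).2
  have h0K : (0 : G) ∈ K := by simp [hK]
  have hP3 := card_erase_add_one h0K
  rw [card_univ, Fintype.card_fin] at hS
  rw [card_univ] at hK2
  change S0.card + S1.card = A.card at hS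
  change K.card + _ = _ at hK2
  rw [← hS] at hm ⊢
  have hne : (S0.card : ℤ) - S1.card ≠ 0 := by
    obtain ⟨t, ht⟩ := hm; omega
  have hsq : (1 : ℤ) ≤ ((S0.card : ℤ) - S1.card) ^ 2 := by
    have := pow_pos (abs_pos.2 hne) 2
    rw [sq_abs] at this; omega
  have hfin : (S0.card + S1.card) ^ 2 + 1 ≤ S0.card * (S0.card * 2) + S1.card * (S1.card * 2) := by
    zify; nlinarith
  omega

/-- `2 σ^2 + |G[2]| ≤ |G|`. -/
theorem result (G : Type) [AddCommGroup G] [Finite G] :
    2 * sigma G ^ 2 + Nat.card {x : G // x + x = 0} ≤ Nat.card G := by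
  classical
  haveI := Fintype.ofFinite G
  have hmem : sigma G ∈ {m | ∃ A : Finset G, IsB2 A ∧ A.card = m} := by
    apply Nat.sSup_mem
    · refine ⟨0, ∅, ?_, rfl⟩
      intro l hl; simp at hl
    · refine ⟨Fintype.card G, ?_⟩
      rintro _ ⟨A, -, rfl⟩; exact card_le_univ _
  obtain ⟨A, hA, hc⟩ := hmem
  rw [← hc, Nat.card_eq_fintype_card, Nat.card_eq_fintype_card, Fintype.card_subtype]
  exact part1 A hA

end Pool.Agent.Results.MP_c5d52e_co.Torsion
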